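import Pool.Agent.Y140.AW.Stm

/-!
# Project AW, St_res: the discriminant as a product (helper421)
-/

set_option autoImplicit false

open Polynomial

namespace Pool.Agent.Y421.AW

theorem prod_of_res {N : Type} [Field N] [IsAlgClosed N] (f : N[X]) (hf : f.Monic) (d : ℕ)
    (hd : f.natDegree = d) (D : N) (hD : D ≠ 0)
    (h : resultant f (derivative f) d (d - 1) = D) :
    ∃ b : Fin d → N, Function.Injective b ∧ (∀ c, f.eval c = 0 ↔ ∃ i, c = b i) ∧
      ∏ i, (derivative f).eval (b i) = D := by
  classical
  have hf0 : f ≠ 0 := hf.ne_zero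
  have hspl : f.Splits := IsAlgClosed.splits f
  have h1 : resultant f (derivative f) f.natDegree (d - 1) =
      f.leadingCoeff ^ (d - 1) * (f.roots.map (derivative f).eval).prod :=
    resultant_eq_prod_eval f (derivative f) (d - 1)
      ((natDegree_derivative_le f).trans (by rw [hd])) hspl
  rw [hd, h, hf.leadingCoeff, one_pow, one_mul] at h1
  have hne : ∀ x ∈ f.roots, (derivative f).eval x ≠ 0 := by
    intro x hx h0
    apply hD
    rw [h1]
    exact Multiset.prod_eq_zero (Multiset.mem_map.2 ⟨x, hx, h0⟩)
  have hnd : f.roots.Nodup := by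
    rw [Multiset.nodup_iff_count_le_one]
    intro x
    rw [count_roots]
    by_contra hcon
    have h2 := (one_lt_rootMultiplicity_iff_isRoot hf0).1 (not_le.1 hcon)
    exact hne x ((mem_roots hf0).2 h2.1) h2.2
  have hcard : f.roots.toFinset.card = d := by
    rw [Multiset.toFinset_card_of_nodup hnd, ← hspl.natDegree_eq_card_roots, hd]
  let e := f.roots.toFinset.equivFinOfCardEq hcard
  refine ⟨fun i => (e.symm i : N), fun i j hij => ?_, fun c => ?_, ?_⟩
  · exact e.symm.injective (Subtype.ext hij)
  · constructor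
    · intro hc
      have hm : c ∈ f.roots.toFinset := Multiset.mem_toFinset.2 ((mem_roots hf0).2 hc)
      exact ⟨e ⟨c, hm⟩, by simp⟩
    · rintro ⟨i, rfl⟩
      exact (mem_roots hf0).1 (Multiset.mem_toFinset.1 (e.symm i).2)
  · rw [h1, Equiv.prod_comp e.symm (fun x : f.roots.toFinset => (derivative f).eval (x : N)),
      Finset.prod_coe_sort f.roots.toFinset (fun x => (derivative f).eval x),
      Finset.prod_multiset_map_count]
    refine Finset.prod_congr rfl fun x hx => ?_
    rw [Multiset.count_eq_one_of_mem hnd (Multiset.mem_toFinset.1 hx), pow_one]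

open Pool.Agent.Y140.AW in
theorem t_res : St_res := by
  intro K N _ _ _ _ Θ D₀ d hD a ha
  have hmon : (tA Θ a).Monic := hD.monic.map _
  have hdeg : (tA Θ a).natDegree = d := by
    rw [tA, hD.monic.natDegree_map, hD.deg]
  refine prod_of_res (tA Θ a) hmon d hdeg (aeval a D₀) ha ?_
  have h1 : derivative (tA Θ a) = Θ.derivative.map (Polynomial.aeval a : K[X] →ₐ[K] N).toRingHom := by
    rw [tA, derivative_map]
  rw [h1, tA, resultant_map_map, hD.res]
  rfl

end Pool.Agent.Y421.AW
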