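import Pool.Agent.Y140.AW.Stm

/-!
# Project AW, St_int: integrality of the points (helper421)

An element of the field `N` is integral over the subalgebra `A` if it belongs to all valuation
rings of `N` which contain `A`.
-/

set_option autoImplicit false

open Polynomial

namespace Pool.Agent.Y421.AW

/-- the valuative criterion -/
theorem int_of_val {K N : Type} [Field K] [Field N] [Algebra K N] (A : Subalgebra K N) (x : N)
    (h : ∀ V : ValuationSubring N, (∀ y ∈ A, y ∈ V) → x ∈ V) : IsIntegral A x := by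
  have h1 : x ∈ (⨅ V : {V : ValuationSubring N // (A : Set N) ⊆ V.toSubring}, V.1.toSubring) := by
    rw [Subring.mem_iInf]
    rintro ⟨V, hV⟩
    exact h V fun y hy => hV hy
  rw [iInf_valuationSubring_superset] at h1
  have h2 : IsIntegral (Subring.closure (A : Set N)) x := h1
  have hle : Subring.closure (A : Set N) ≤ A.toSubring := Subring.closure_le.2 fun y hy => hy
  let φ : Subring.closure (A : Set N) →+* A :=
    { toFun := fun y => ⟨y.1, hle y.2⟩
      map_one' := rfl
      map_mul' := fun _ _ => rfl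
      map_zero' := rfl
      map_add' := fun _ _ => rfl }
  exact h2.map_of_comp_eq φ (RingHom.id N) (RingHom.ext fun _ => rfl)

section val

variable {N Γ : Type*} [Field N] [LinearOrderedCommGroupWithZero Γ] (v : Valuation N Γ)

/-- bound for the roots of a monic polynomial -/
theorem root_bound (f : N[X]) (hf : f.Monic) (M : Γ) (hM : 1 ≤ M)
    (hc : ∀ k < f.natDegree, v (f.coeff k) ≤ M) (b : N) (hb : f.eval b = 0) : v b ≤ M := by
  by_contra hcon
  have hβ : M < v b := not_le.1 hcon
  have hβ1 : 1 < v b := lt_of_le_of_lt hM hβ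
  have hβ0 : 0 < v b := lt_trans zero_lt_one hβ1
  have h1 : b ^ f.natDegree = -∑ k ∈ Finset.range f.natDegree, f.coeff k * b ^ k := by
    rw [eval_eq_sum_range, Finset.sum_range_succ, hf.coeff_natDegree, one_mul] at hb
    linear_combination hb
  have h2 : v (∑ k ∈ Finset.range f.natDegree, f.coeff k * b ^ k) < v b ^ f.natDegree := by
    refine v.map_sum_lt (pow_pos hβ0 _).ne' fun k hk => ?_
    rw [Finset.mem_range] at hk
    rw [map_mul, map_pow]
    calc v (f.coeff k) * v b ^ k ≤ M * v b ^ k := mul_le_mul_left (hc k hk) _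
      _ < v b * v b ^ k := by
          exact (mul_lt_mul_iff_left₀ (pow_pos hβ0 k)).2 hβ
      _ = v b ^ (k + 1) := (pow_succ' _ _).symm
      _ ≤ v b ^ f.natDegree := pow_le_pow_right₀ hβ1.le hk
  have h3 : v (b ^ f.natDegree) < v b ^ f.natDegree := by
    rw [h1, Valuation.map_neg]
    exact h2
  rw [map_pow] at h3
  exact lt_irrefl _ h3

theorem eval_le_one (f : N[X]) (hf : ∀ k, v (f.coeff k) ≤ 1) {x : N} (hx : v x ≤ 1) :
    v (f.eval x) ≤ 1 := by
  rw [eval_eq_sum_range]
  refine v.map_sum_le fun k _ => ?_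
  rw [map_mul, map_pow]
  exact mul_le_one' (hf k) (pow_le_one' hx k)

end val

open Pool.Agent.Y140.AW

/-- the points have coordinates in the valuation rings -/
theorem key (h : St_res) (p : ℕ) [Fact p.Prime] (K N : Type) [Field K] [CharP K p] [Field N]
    [IsAlgClosed N] [Algebra K N] (Θ : K[X][X]) (D₀ D : K[X]) (d B m : ℕ) (hD : DD Θ D₀ d)
    (hB : BB Θ B m) (hDD : D = D₀ ^ 4) (ν : Fin m → N) (s a b : N) (hpt : IsPt Θ D p B ν s a b)
    (A : Subalgebra K N) (hs : s ∈ A) (hν : ∀ i, ν i ∈ A) (V : ValuationSubring N)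
    (hA : ∀ y ∈ A, y ∈ V) :
    a ∈ V ∧ b ∈ V ∧ (aeval a D)⁻¹ ∈ V ∧ tZ Θ a b ∈ V ∧ (tZ Θ a b)⁻¹ ∈ V := by
  obtain ⟨hp1, hp2, hp3⟩ := hpt
  have hprime : p.Prime := Fact.out
  have : CharP N p := charP_of_injective_algebraMap (algebraMap K N).injective p
  obtain ⟨v, hv⟩ : ∃ v, v = V.valuation := ⟨_, rfl⟩
  have hle : ∀ y, v y ≤ 1 ↔ y ∈ V := fun y => by rw [hv]; exact V.valuation_le_one_iff y
  have hK : ∀ c : K, v (algebraMap K N c) ≤ 1 := fun c => (hle _).2 (hA _ (A.algebraMap_mem c))
  have htriv : v.IsTrivialOn K := ⟨fun c hc => by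
    refine le_antisymm (hK c) ?_
    have h1 : v (algebraMap K N c) * v (algebraMap K N c⁻¹) = 1 := by
      rw [← map_mul, ← map_mul, mul_inv_cancel₀ hc, map_one, map_one]
    calc (1 : V.ValueGroup) = v (algebraMap K N c) * v (algebraMap K N c⁻¹) := h1.symm
      _ ≤ v (algebraMap K N c) * 1 := mul_le_mul_right (hK c⁻¹) _
      _ = v (algebraMap K N c) := mul_one _⟩
  have hs1 : v s ≤ 1 := (hle _).2 (hA _ hs)
  have hν1 : ∀ i, v (ν i) ≤ 1 := fun i => (hle _).2 (hA _ (hν i))
  obtain ⟨Da, hDa⟩ : ∃ Da, Da = aeval a D := ⟨_, rfl⟩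
  rw [← hDa] at hp2 hp3 ⊢
  obtain ⟨E, hE⟩ : ∃ E, E = a + a ^ (B * p) + ∑ i : Fin m, ν i * a ^ (p * (i : ℕ)) := ⟨_, rfl⟩
  have hg : Da ^ p * E + 1 = s * (Da * b) ^ p := by
    rw [← hp3, GG]
    simp only [eval_add, eval_mul, eval_pow, eval_X, eval_one, eval_finsetSum, eval_C,
      eval_map_algebraMap, ← hDa]
    rw [add_pow_char, one_pow, hE, mul_pow, ← pow_mul]
    ring
  have hmon : (tA Θ a).Monic := hD.monic.map _
  have hdeg : (tA Θ a).natDegree = d := by
    rw [tA, hD.monic.natDegree_map, hD.deg]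
  have hcoeff : ∀ k, (tA Θ a).coeff k = aeval a (Θ.coeff k) := fun k => by
    rw [tA, coeff_map]
    rfl
  have hp0 : p ≠ 0 := hprime.ne_zero
  -- the first coordinate
  have ha : v a ≤ 1 := by
    by_contra hcon
    have hα : 1 < v a := not_le.1 hcon
    have hα0 : 0 < v a := lt_trans zero_lt_one hα
    have hpoly : ∀ f : K[X], f ≠ 0 → v (aeval a f) = v a ^ f.natDegree := fun f hf =>
      valuation_aeval_eq_valuation_X_pow_natDegree_of_one_lt_valuation_X a hα hf
    have hD0 : D ≠ 0 := by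
      rintro rfl
      exact hp2 (by rw [hDa, map_zero])
    have hvD : v Da = v a ^ D.natDegree := by rw [hDa]; exact hpoly D hD0
    have hBp : 1 < B * p := by
      have h1 := hB.one
      have h2 := hprime.two_le
      nlinarith
    have hsum : v (a + ∑ i : Fin m, ν i * a ^ (p * (i : ℕ))) < v a ^ (B * p) := by
      refine v.map_add_lt ?_ ?_
      · calc v a = v a ^ 1 := (pow_one _).symm
          _ < v a ^ (B * p) := pow_lt_pow_right₀ hα hBp
      · refine v.map_sum_lt (pow_pos hα0 _).ne' fun i _ => ?_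
        rw [map_mul, map_pow]
        calc v (ν i) * v a ^ (p * (i : ℕ)) ≤ 1 * v a ^ (p * (i : ℕ)) := mul_le_mul_left (hν1 i) _
          _ = v a ^ (p * (i : ℕ)) := one_mul _
          _ < v a ^ (B * p) := by
              refine pow_lt_pow_right₀ hα ?_
              rw [mul_comm B p]
              exact Nat.mul_lt_mul_of_pos_left (i.2.trans_le hB.m) hprime.pos
    have hvE : v E = v a ^ (B * p) := by
      have h1 : E = (a + ∑ i : Fin m, ν i * a ^ (p * (i : ℕ))) + a ^ (B * p) := by
        rw [hE]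
        ring
      rw [h1, Valuation.map_add_eq_of_lt_right _ (by rw [map_pow]; exact hsum), map_pow]
    have hvg : v (Da ^ p * E + 1) = (v a ^ D.natDegree * v a ^ B) ^ p := by
      have h1 : v (Da ^ p * E) = (v a ^ D.natDegree * v a ^ B) ^ p := by
        rw [map_mul, map_pow, hvD, hvE, mul_pow, pow_mul]
      rw [Valuation.map_add_eq_of_lt_left _ ?_, h1]
      rw [h1, map_one]
      refine one_lt_pow₀ ?_ hp0
      rw [← pow_add]
      exact one_lt_pow₀ hα (by have := hB.one; omega)
    have hvr : v (s * (Da * b) ^ p) ≤ (v a ^ D.natDegree * v b) ^ p := by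
      rw [map_mul, map_pow, map_mul, hvD]
      exact mul_le_of_le_one_left' hs1
    rw [← hg, hvg] at hvr
    have h2 : v a ^ D.natDegree * v a ^ B ≤ v a ^ D.natDegree * v b :=
      (pow_le_pow_iff_left₀ zero_le zero_le hp0).1 hvr
    have h3 : v a ^ B ≤ v b := (mul_le_mul_iff_right₀ (pow_pos hα0 _)).1 h2
    have h4 : v b ≤ v a ^ (B - 1) := by
      refine root_bound v (tA Θ a) hmon _ (one_le_pow₀ hα.le) (fun k _ => ?_) b hp1
      rw [hcoeff]
      by_cases h0 : Θ.coeff k = 0
      · rw [h0, map_zero, map_zero]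
        exact zero_le
      · rw [hpoly _ h0]
        exact pow_le_pow_right₀ hα.le (by have := hB.coeff k; omega)
    have h5 : v a ^ (B - 1) < v a ^ B := pow_lt_pow_right₀ hα (by have := hB.one; omega)
    exact lt_irrefl _ (h5.trans_le (h3.trans h4))
  have haev : ∀ f : K[X], v (aeval a f) ≤ 1 := by
    intro f
    have h1 := eval_le_one v (f.map (algebraMap K N)) (fun k => by
      rw [coeff_map]
      exact hK _) ha
    rwa [eval_map_algebraMap] at h1
  have hroot : ∀ c : N, (tA Θ a).eval c = 0 → v c ≤ 1 := fun c hc =>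
    root_bound v (tA Θ a) hmon 1 le_rfl (fun k _ => by rw [hcoeff]; exact haev _) c hc
  have hb := hroot b hp1
  have hvDa : v Da = 1 := by
    refine le_antisymm (by rw [hDa]; exact haev _) ?_
    by_contra hcon
    have hlt : v Da < 1 := not_le.1 hcon
    have hltp : v Da ^ p < 1 := pow_lt_one₀ zero_le hlt hp0
    have hE1 : v E ≤ 1 := by
      rw [hE]
      refine v.map_add_le (v.map_add_le ha ?_) (v.map_sum_le fun i _ => ?_)
      · rw [map_pow]
        exact pow_le_one' ha _
      · rw [map_mul, map_pow]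
        exact mul_le_one' (hν1 i) (pow_le_one' ha _)
    have h1 : v (Da ^ p * E) < 1 := by
      rw [map_mul, map_pow]
      exact lt_of_le_of_lt (mul_le_of_le_one_right' hE1) hltp
    have h2 : v (Da ^ p * E + 1) = 1 := by
      rw [add_comm]
      exact v.map_one_add_of_lt h1
    have h3 : v (s * (Da * b) ^ p) < 1 := by
      rw [map_mul, map_pow, map_mul]
      refine lt_of_le_of_lt ((mul_le_of_le_one_left' hs1).trans ?_) hltp
      exact pow_le_pow_left₀ zero_le (mul_le_of_le_one_right' hb) p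
    rw [hg] at h2
    exact h3.ne h2
  have htZ : ∀ c : N, (tA Θ a).eval c = 0 → v (tZ Θ a c) ≤ 1 := by
    intro c hc
    refine eval_le_one v _ (fun k => ?_) (hroot c hc)
    rw [coeff_derivative, map_mul, hcoeff]
    refine mul_le_one' (haev _) ((hle _).2 ?_)
    have h1 : ((k : N) + 1) = ((k + 1 : ℕ) : N) := by push_cast; rfl
    rw [h1]
    exact natCast_mem V _
  have hD0a : v (aeval a D₀) = 1 := by
    refine le_antisymm (haev _) ?_
    by_contra hcon
    have h1 := pow_lt_one₀ zero_le (not_le.1 hcon) (n := 4) (by norm_num)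
    rw [← map_pow, ← map_pow, ← hDD, ← hDa, hvDa] at h1
    exact lt_irrefl _ h1
  have hD0ne : aeval a D₀ ≠ 0 := by
    intro h0
    rw [h0, map_zero] at hD0a
    exact zero_ne_one hD0a
  obtain ⟨c, -, hc2, hc3⟩ := h K N Θ D₀ d hD a hD0ne
  obtain ⟨j, hj⟩ := (hc2 b).1 hp1
  have hci : ∀ i, v (tZ Θ a (c i)) ≤ 1 := fun i => htZ _ ((hc2 _).2 ⟨i, rfl⟩)
  have htZb : v (tZ Θ a b) = 1 := by
    refine le_antisymm (htZ b hp1) ?_
    have h1 : v (∏ i, tZ Θ a (c i)) = 1 := by rw [hc3, hD0a]
    rw [← Finset.mul_prod_erase Finset.univ _ (Finset.mem_univ j), map_mul, ← hj] at h1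
    have h2 : v (∏ i ∈ Finset.univ.erase j, tZ Θ a (c i)) ≤ 1 := by
      rw [map_prod]
      exact Finset.prod_le_one' fun i _ => hci i
    calc (1 : V.ValueGroup) = v (tZ Θ a b) * v (∏ i ∈ Finset.univ.erase j, tZ Θ a (c i)) :=
          h1.symm
      _ ≤ v (tZ Θ a b) := mul_le_of_le_one_right' h2
  refine ⟨(hle _).1 ha, (hle _).1 hb, (hle _).1 ?_, (hle _).1 htZb.le, (hle _).1 ?_⟩
  · rw [map_inv₀, hvDa, inv_one]
  · rw [map_inv₀, htZb, inv_one]

theorem t_int (h : St_res) : St_int := by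
  intro p _ K N _ _ _ _ _ Θ D₀ D d B m hD hB hDD ν s a b hpt A hs hν
  have hk := key h p K N Θ D₀ D d B m hD hB hDD ν s a b hpt A hs hν
  exact ⟨int_of_val A _ fun V hV => (hk V hV).1, int_of_val A _ fun V hV => (hk V hV).2.1,
    int_of_val A _ fun V hV => (hk V hV).2.2.1, int_of_val A _ fun V hV => (hk V hV).2.2.2.1,
    int_of_val A _ fun V hV => (hk V hV).2.2.2.2⟩

end Pool.Agent.Y421.AW
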